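import Pool.Agent.H24.SCG.Base

/-!
Module AUF of the project SCG: `fieldAut σ` is in the range of `iota` only for `σ = 1`.
-/

namespace Pool.Agent.H62.SCG

open Matrix Pool.SCG

variable {F : Type*} [Field F]

/-- the elementary transvection `1 + e_{12}` -/
def T12 (F : Type*) [Field F] (a : F) : SL3 F := ⟨!![1, a, 0; 0, 1, 0; 0, 0, 1], by
  simp [Matrix.det_fin_three]⟩

/-- the elementary transvection `1 + e_{13}` -/
def T13 (F : Type*) [Field F] (a : F) : SL3 F := ⟨!![1, 0, a; 0, 1, 0; 0, 0, 1], by
  simp [Matrix.det_fin_three]⟩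

/-- the elementary transvection `1 + e_{21}` -/
def T21 (F : Type*) [Field F] (a : F) : SL3 F := ⟨!![1, 0, 0; a, 1, 0; 0, 0, 1], by
  simp [Matrix.det_fin_three]⟩

theorem field_T12 (σ : F ≃+* F) (a : F) : fieldAut σ (T12 F a) = T12 F (σ a) := by
  apply Subtype.ext
  show ((T12 F a : SL3 F) : M3 F).map (σ : F →+* F) = (T12 F (σ a) : M3 F)
  ext i j
  fin_cases i <;> fin_cases j <;> simp [T12]

theorem field_T13 (σ : F ≃+* F) (a : F) : fieldAut σ (T13 F a) = T13 F (σ a) := by
  apply Subtype.ext
  show ((T13 F a : SL3 F) : M3 F).map (σ : F →+* F) = (T13 F (σ a) : M3 F)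
  ext i j
  fin_cases i <;> fin_cases j <;> simp [T13]

theorem field_T21 (σ : F ≃+* F) (a : F) : fieldAut σ (T21 F a) = T21 F (σ a) := by
  apply Subtype.ext
  show ((T21 F a : SL3 F) : M3 F).map (σ : F →+* F) = (T21 F (σ a) : M3 F)
  ext i j
  fin_cases i <;> fin_cases j <;> simp [T21]

theorem AUF_thm : AUFStmt := by
  intro F _ hF x σ h
  have hap : ∀ g : SL3 F, tw x.s (x.m * g * x.m⁻¹) = fieldAut σ g := by
    intro g
    rw [← h]
    rfl
  cases hs : x.s with
  | true =>
    exfalso
    have h1 : ∀ g : SL3 F, x.m * g = it (fieldAut σ g) * x.m := by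
      intro g
      have := hap g
      rw [hs] at this
      have h2 : it (x.m * g * x.m⁻¹) = fieldAut σ g := by simpa [tw] using this
      rw [← h2, it_it]
      group
    have e12 := h1 (T12 F 1)
    have e13 := h1 (T13 F 1)
    rw [field_T12, map_one] at e12
    rw [field_T13, map_one] at e13
    have f12 := congrArg (fun g : SL3 F => (g : M3 F)) e12
    have f13 := congrArg (fun g : SL3 F => (g : M3 F)) e13
    simp only [Matrix.SpecialLinearGroup.coe_mul, coe_it] at f12 f13
    have hdet := x.m.2
    generalize hM : (x.m : M3 F) = M at *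
    have a1 := congrFun (congrFun f12 0) 1
    have a2 := congrFun (congrFun f12 2) 1
    have a3 := congrFun (congrFun f13 1) 2
    simp [T12, T13, Matrix.mul_apply, Fin.sum_univ_three, Matrix.adjugate_fin_three] at a1 a2 a3
    rw [Matrix.det_fin_three] at hdet
    rw [a1, a2, a3] at hdet
    simp at hdet
  | false =>
    have h1 : ∀ g : SL3 F, x.m * g = fieldAut σ g * x.m := by
      intro g
      have := hap g
      rw [hs] at this
      have h2 : x.m * g * x.m⁻¹ = fieldAut σ g := by simpa [tw] using this
      rw [← h2]
      group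
    have hdet := x.m.2
    have hE : ∀ a : F, (x.m : M3 F) * (T12 F a : M3 F) = (T12 F (σ a) : M3 F) * (x.m : M3 F) := by
      intro a
      have e12 := h1 (T12 F a)
      rw [field_T12] at e12
      have f12 := congrArg (fun g : SL3 F => (g : M3 F)) e12
      simpa only [Matrix.SpecialLinearGroup.coe_mul] using f12
    have hE3 : (x.m : M3 F) * (T13 F 1 : M3 F) = (T13 F 1 : M3 F) * (x.m : M3 F) := by
      have e13 := h1 (T13 F 1)
      rw [field_T13, map_one] at e13
      have f13 := congrArg (fun g : SL3 F => (g : M3 F)) e13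
      simpa only [Matrix.SpecialLinearGroup.coe_mul] using f13
    have hE1 : (x.m : M3 F) * (T21 F 1 : M3 F) = (T21 F 1 : M3 F) * (x.m : M3 F) := by
      have e13 := h1 (T21 F 1)
      rw [field_T21, map_one] at e13
      have f13 := congrArg (fun g : SL3 F => (g : M3 F)) e13
      simpa only [Matrix.SpecialLinearGroup.coe_mul] using f13
    have hm : ∀ i j, (x.m : M3 F) i j = x.m.1 i j := fun i j => rfl
    generalize hM : (x.m : M3 F) = M at *
    have hE0 := hE 1
    rw [map_one] at hE0
    have a00 := congrFun (congrFun hE0 0) 0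
    have a01 := congrFun (congrFun hE0 0) 1
    have a02 := congrFun (congrFun hE0 0) 2
    have a11 := congrFun (congrFun hE0 1) 1
    have a21 := congrFun (congrFun hE0 2) 1
    have b00 := congrFun (congrFun hE3 0) 0
    have b01 := congrFun (congrFun hE3 0) 1
    have b02 := congrFun (congrFun hE3 0) 2
    have b12 := congrFun (congrFun hE3 1) 2
    have b22 := congrFun (congrFun hE3 2) 2
    have c00 := congrFun (congrFun hE1 0) 0
    have c12 := congrFun (congrFun hE1 1) 2
    have c11 := congrFun (congrFun hE1 1) 1
    simp [T12, T13, T21, Matrix.mul_apply, Fin.sum_univ_three] at a00 a01 a02 a11 a21 b00 b01 b02 b12 b22 c00 c12 c11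
    have a01 : M 0 0 = M 1 1 := by linear_combination a01
    have b02 : M 0 0 = M 2 2 := by linear_combination b02
    have hc : (M 0 0) ^ 3 = 1 := by
      rw [Matrix.det_fin_three] at hdet
      rw [a00, a02, a21, b01, c00, c12, ← a01, ← b02] at hdet
      simp only [mul_zero, zero_mul, sub_zero, add_zero] at hdet
      rw [← hdet]
      ring
    have hc1 := hF.2 _ hc
    have hM1 : M = 1 := by
      ext i j
      fin_cases i <;> fin_cases j
      · simpa using hc1
      · simpa using c00
      · simpa using c12
      · simpa using a00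
      · show M 1 1 = (1 : M3 F) 1 1
        rw [← a01, hc1]
        simp
      · simpa using a02
      · simpa using a21
      · simpa using b01
      · show M 2 2 = (1 : M3 F) 2 2
        rw [← b02, hc1]
        simp
    refine ⟨?_, ?_⟩
    · ext a
      have := hE a
      rw [hM1, one_mul, mul_one] at this
      have h01 := congrFun (congrFun this 0) 1
      simp [T12] at h01
      simpa using h01.symm
    · apply Cor.ext
      · apply Subtype.ext
        exact hM.trans hM1
      · exact hs

end Pool.Agent.H62.SCG
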