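import Pool.Agent.H24.SCG.Base

/-!
Module AUN of the project SCG: normal form of the automorphisms in `AutG F`.
-/

namespace Pool.Agent.H62.SCG

open Matrix Pool.SCG

variable {F : Type*} [Field F]

/-- field automorphism applied to the matrix -/
theorem fieldAut_coe (σ : F ≃+* F) (g : SL3 F) :
    ((fieldAut σ g : SL3 F) : M3 F) = (g : M3 F).map (σ : F →+* F) := rfl

theorem fieldAut_mul (σ τ : F ≃+* F) : fieldAut σ * fieldAut τ = fieldAut (σ * τ) := by
  ext g : 1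
  apply Subtype.ext
  rfl

theorem fieldAut_one : fieldAut (1 : F ≃+* F) = 1 := by
  ext g : 1
  apply Subtype.ext
  rfl

theorem fieldAut_transpose (σ : F ≃+* F) (g : SL3 F) :
    fieldAut σ g.transpose = (fieldAut σ g).transpose := by
  apply Subtype.ext
  rfl

theorem fieldAut_it (σ : F ≃+* F) (g : SL3 F) : fieldAut σ (it g) = it (fieldAut σ g) := by
  simp only [it]
  rw [fieldAut_transpose, map_inv]

theorem fieldAut_tw (σ : F ≃+* F) (s : Bool) (g : SL3 F) :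
    fieldAut σ (tw s g) = tw s (fieldAut σ g) := by
  cases s
  · rfl
  · exact fieldAut_it σ g

/-- field automorphism on `Cor F` -/
def fc (σ : F ≃+* F) (x : Cor F) : Cor F := ⟨fieldAut σ x.m, x.s⟩

theorem fieldAut_iota (σ : F ≃+* F) (x : Cor F) :
    fieldAut σ * iota F x = iota F (fc σ x) * fieldAut σ := by
  ext g : 1
  show fieldAut σ (tw x.s (x.m * g * x.m⁻¹))
    = tw x.s (fieldAut σ x.m * fieldAut σ g * (fieldAut σ x.m)⁻¹)
  rw [fieldAut_tw, map_mul, map_mul, map_inv]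

theorem conj_eq_iota (m : SL3 F) : MulAut.conj m = iota F (inn m) := by
  ext g : 1
  show m * g * m⁻¹ = tw false (m * g * m⁻¹)
  rfl

theorem graph_eq_iota : graphAut F = iota F ⟨1, true⟩ := by
  ext g : 1
  show it g = tw true (1 * g * 1⁻¹)
  simp [tw]

theorem diag_eq_iota [Finite F] (hF : Good F) (P : GL (Fin 3) F) :
    ∃ m : SL3 F, diagAut P = iota F (inn m) := by
  have hP : (P : M3 F).det ≠ 0 := by
    have := (Matrix.isUnit_iff_isUnit_det (P : M3 F)).1 P.isUnit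
    exact this.ne_zero
  obtain ⟨c, hc⟩ := exists_cube hF (P : M3 F).det
  have hc0 : c ≠ 0 := by
    rintro rfl
    apply hP
    rw [← hc]
    simp
  have hdet : (c⁻¹ • (P : M3 F)).det = 1 := by
    rw [Matrix.det_smul, Fintype.card_fin, inv_pow, hc]
    exact inv_mul_cancel₀ hP
  refine ⟨⟨c⁻¹ • (P : M3 F), hdet⟩, ?_⟩
  have hmul : ((c⁻¹ • (P : M3 F))) * (c • ((P⁻¹ : GL (Fin 3) F) : M3 F)) = 1 := by
    rw [Matrix.smul_mul, Matrix.mul_smul, smul_smul, inv_mul_cancel₀ hc0, one_smul,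
      ← Units.val_mul, mul_inv_cancel, Units.val_one]
  have hinv : ((⟨c⁻¹ • (P : M3 F), hdet⟩ : SL3 F)⁻¹ : SL3 F).1
      = c • ((P⁻¹ : GL (Fin 3) F) : M3 F) := by
    show adjugate (c⁻¹ • (P : M3 F)) = _
    exact adj_unique hdet hmul
  ext g : 1
  apply Subtype.ext
  show (P : M3 F) * g.1 * ((P⁻¹ : GL (Fin 3) F) : M3 F)
    = (c⁻¹ • (P : M3 F)) * g.1 * ((⟨c⁻¹ • (P : M3 F), hdet⟩ : SL3 F)⁻¹ : SL3 F).1
  rw [hinv, Matrix.smul_mul, Matrix.smul_mul, Matrix.mul_smul, smul_smul, inv_mul_cancel₀ hc0,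
    one_smul]

theorem AUN_thm : AUNStmt := by
  intro F _ _ hF α hα
  induction hα using Subgroup.closure_induction with
  | mem α h =>
    rcases h with ((h | h) | h) | h
    · obtain ⟨m, rfl⟩ := h
      exact ⟨inn m, 1, by rw [fieldAut_one, mul_one, conj_eq_iota]⟩
    · obtain ⟨P, rfl⟩ := h
      obtain ⟨m, hm⟩ := diag_eq_iota hF P
      exact ⟨inn m, 1, by rw [fieldAut_one, mul_one, hm]⟩
    · obtain ⟨σ, rfl⟩ := h
      exact ⟨1, σ, by rw [map_one, one_mul]⟩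
    · rw [Set.mem_singleton_iff] at h
      exact ⟨⟨1, true⟩, 1, by rw [fieldAut_one, mul_one, h, graph_eq_iota]⟩
  | one => exact ⟨1, 1, by rw [fieldAut_one, map_one, mul_one]⟩
  | mul α β _ _ h1 h2 =>
    obtain ⟨x, σ, rfl⟩ := h1
    obtain ⟨y, τ, rfl⟩ := h2
    refine ⟨x * fc σ y, σ * τ, ?_⟩
    rw [map_mul, ← fieldAut_mul]
    calc iota F x * fieldAut σ * (iota F y * fieldAut τ)
        = iota F x * (fieldAut σ * iota F y) * fieldAut τ := by simp only [mul_assoc]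
      _ = iota F x * (iota F (fc σ y) * fieldAut σ) * fieldAut τ := by rw [fieldAut_iota]
      _ = _ := by simp only [mul_assoc]
  | inv α _ h1 =>
    obtain ⟨x, σ, rfl⟩ := h1
    refine ⟨fc σ⁻¹ x⁻¹, σ⁻¹, ?_⟩
    have hs : (fieldAut σ)⁻¹ = fieldAut σ⁻¹ := by
      rw [inv_eq_iff_mul_eq_one, fieldAut_mul, mul_inv_cancel, fieldAut_one]
    rw [_root_.mul_inv_rev, hs, ← map_inv, fieldAut_iota]

end Pool.Agent.H62.SCG
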